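import Pool.Agent.L7h27.SJ.Stm
import Pool.Agent.L7h27.SI.BST

/-!
Project SJ, part BST: adaptation of `Pool.Agent.L7h27.SI.s_BST` (helper12) by helper84.
-/

set_option autoImplicit false
set_option linter.all false

namespace Pool.Agent.L7h84.SJ

open Finset Pool.Agent.L7h27.SI

theorem s_BST : Pool.Agent.L7h27.SJ.S_BST := by
  intro hDEC V _ ι N _ A p ρ hH hV hI hinj i₀ z a hz1 hzp hap hzc haz hconj
  have := hH.finV
  have := hH.finN
  have hp := hH.prime i₀
  have hrz1 : ρ i₀ z ≠ 1 := by
    intro h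
    exact hz1 (hinj i₀ (by rw [h, map_one]))
  have hcomz : ∀ i (g : N i), ρ i₀ z * ρ i g = ρ i g * ρ i₀ z := by
    intro i g
    by_cases hi : i = i₀
    · subst hi
      rw [← map_mul, ← map_mul, hzc g]
    · exact (hH.comm i i₀ hi g z).symm
  have hfix : ∀ v, ρ i₀ z v = v → v = 0 := BST.fixed_inv ρ hI (ρ i₀ z) hcomz hrz1
  refine ⟨hfix, ?_, ?_⟩
  · -- some `h` does not commute with `a`
    have hex : ∃ h : N i₀, h * a * h⁻¹ ≠ a := by
      by_contra hcon
      push Not at hcon
      have hca : ∀ h : N i₀, h * a = a * h := by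
        intro h
        calc h * a = (h * a * h⁻¹) * h := by group
          _ = a * h := by rw [hcon h]
      have hbot : ∀ j : ℕ, ∀ v ∈ Vj (ρ i₀ z) (ρ i₀ a) j, v = 0 := by
        intro j v hv
        have hTe : ρ i₀ a * (ρ i₀ z) ^ j = ρ i₀ (a * z ^ j) := by rw [map_mul, map_pow]
        refine BST.fixed_inv ρ hI (ρ i₀ (a * z ^ j)) ?_ ?_ v ?_
        · intro i g
          by_cases hi : i = i₀
          · subst hi
            rw [← map_mul, ← map_mul]
            congr 1
            have hc1 : Commute a g := (hca g).symm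
            have hc2 : Commute z g := (hzc g).symm
            exact (hc1.mul_left (hc2.pow_left j)).eq
          · exact (hH.comm i i₀ hi g _).symm
        · intro h
          exact haz j (hinj i₀ (by rw [h, map_one]))
        · rw [← hTe]
          exact hv
      have hb := hDEC V (p i₀) hp (hH.cop i₀) (ρ i₀ z) (ρ i₀ a)
        (by rw [← map_mul, ← map_mul, hzc a]) (by rw [← map_pow, hzp, map_one])
        (by rw [← map_pow, hap, map_one]) hfix
      obtain ⟨v, hv⟩ := exists_ne (0 : V)
      obtain ⟨f, hf⟩ := hb.2 v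
      apply hv
      rw [← hf]
      exact Finset.sum_eq_zero fun j _ => hbot j _ (f j).2
    obtain ⟨h, hh⟩ := hex
    obtain ⟨c, hc⟩ := hconj h
    have hpc : ¬ p i₀ ∣ c := by
      rintro ⟨d, rfl⟩
      apply hh
      rw [hc, pow_mul, hzp, one_pow, mul_one]
    have hcop : Nat.Coprime c (p i₀) := ((Nat.Prime.coprime_iff_not_dvd hp).2 hpc).symm
    obtain ⟨m, -, hm⟩ := Nat.exists_mul_mod_eq_one_of_coprime hcop hp.one_lt
    have hpow : ∀ m : ℕ, h ^ m * a * (h ^ m)⁻¹ = a * z ^ (c * m) := by
      intro m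
      induction m with
      | zero => simp
      | succ m ih =>
        have hcz : Commute h (z ^ (c * m)) := (show Commute h z from hzc h).pow_right _
        calc h ^ (m + 1) * a * (h ^ (m + 1))⁻¹ = h * (h ^ m * a * (h ^ m)⁻¹) * h⁻¹ := by
              rw [pow_succ']; group
          _ = h * (a * z ^ (c * m)) * h⁻¹ := by rw [ih]
          _ = (h * a) * (z ^ (c * m) * h⁻¹) := by simp only [mul_assoc]
          _ = (h * a) * (h⁻¹ * z ^ (c * m)) := by rw [hcz.inv_left.eq]
          _ = (h * a * h⁻¹) * z ^ (c * m) := by simp only [mul_assoc]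
          _ = a * z ^ c * z ^ (c * m) := by rw [hc]
          _ = a * z ^ (c * (m + 1)) := by rw [mul_assoc, ← pow_add]; congr 2; ring
    refine ⟨h ^ m, ?_⟩
    rw [hpow m]
    congr 1
    conv_lhs => rw [← Nat.mod_add_div (c * m) (p i₀), hm, pow_add, pow_mul, hzp, one_pow, mul_one, pow_one]
  · -- the index
    have hpp := hp.pos
    have hconj' : ∀ h : N i₀, ∃ c : Fin (p i₀), h * a * h⁻¹ = a * z ^ (c : ℕ) := by
      intro h
      obtain ⟨c, hc⟩ := hconj h
      refine ⟨⟨c % p i₀, Nat.mod_lt _ hpp⟩, ?_⟩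
      rw [hc]
      congr 1
      conv_lhs => rw [← Nat.mod_add_div c (p i₀), pow_add, pow_mul, hzp, one_pow, mul_one]
    choose F hF using hconj'
    have hle : Nat.card (N i₀ ⧸ Subgroup.centralizer ({a} : Set (N i₀))) ≤ Nat.card (Fin (p i₀)) := by
      refine Nat.card_le_card_of_injective (fun q => F q.out) ?_
      intro q q' hqq
      have h1 : q.out * a * q.out⁻¹ = q'.out * a * q'.out⁻¹ := by
        rw [hF, hF]
        exact congrArg (fun c : Fin (p i₀) => a * z ^ (c : ℕ)) hqq
      have h2 : (q.out)⁻¹ * q'.out ∈ Subgroup.centralizer ({a} : Set (N i₀)) := by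
        rw [Subgroup.mem_centralizer_iff]
        intro b hb
        rw [Set.mem_singleton_iff] at hb
        subst hb
        calc b * (q.out⁻¹ * q'.out) = q.out⁻¹ * (q.out * b * q.out⁻¹) * q'.out := by group
          _ = q.out⁻¹ * (q'.out * b * q'.out⁻¹) * q'.out := by rw [h1]
          _ = q.out⁻¹ * q'.out * b := by group
      have h3 := QuotientGroup.eq.2 h2
      rwa [QuotientGroup.out_eq', QuotientGroup.out_eq'] at h3
    rw [Nat.card_fin] at hle
    exact hle

end Pool.Agent.L7h84.SJ
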